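import Pool.Agent.Helper32_NJ.Stmts

/-!
# Squad NJ, module GDR: good reduction in terms of the roots
-/

set_option autoImplicit false

namespace Pool.Agent.NJ.H37

open Polynomial Pool.Agent.NJ

/-- a valuation ring is integrally closed, for cubic polynomials -/
lemma mem_of_cubic {K : Type} [Field K] (A : ValuationSubring K) (f c₂ c₁ c₀ : K) (h2 : c₂ ∈ A)
    (h1 : c₁ ∈ A) (h0 : c₀ ∈ A) (h : f ^ 3 + c₂ * f ^ 2 + c₁ * f + c₀ = 0) : f ∈ A := by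
  rcases A.mem_or_inv_mem f with h3 | h3
  · exact h3
  · by_cases hf : f = 0
    · rw [hf]; exact A.zero_mem
    · have h4 : f = -(c₂ + c₁ * f⁻¹ + c₀ * (f⁻¹ * f⁻¹)) := by
        field_simp
        linear_combination h
      rw [h4]
      exact A.neg_mem _ (A.add_mem _ _ (A.add_mem _ _ h2 (A.mul_mem _ _ h1 h3))
        (A.mul_mem _ _ h0 (A.mul_mem _ _ h3 h3)))

theorem gdr : GDRStmt := by
  intro W A e₁ e₂ e₃ hC hR hG
  obtain ⟨C, h1, h2, h3, h4, h6, hD, hDi⟩ := hG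
  obtain ⟨r2, r4, r6⟩ := hR
  set W' := C • W with hW'
  set u : RatFunc ℂ := (C.u : RatFunc ℂ) with hu
  have hu0 : u ≠ 0 := C.u.ne_zero
  have hui : ((C.u⁻¹ : (RatFunc ℂ)ˣ) : RatFunc ℂ) = u⁻¹ := by
    rw [hu]; exact Units.val_inv_eq_inv_val C.u
  have b2 : W'.b₂ = -4 * ((e₁ - C.r) / u ^ 2 + (e₂ - C.r) / u ^ 2 + (e₃ - C.r) / u ^ 2) := by
    rw [hW', WeierstrassCurve.variableChange_b₂, hui, r2]
    field_simp
    ring
  have b4 : W'.b₄ = 2 * ((e₁ - C.r) / u ^ 2 * ((e₂ - C.r) / u ^ 2) +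
      (e₁ - C.r) / u ^ 2 * ((e₃ - C.r) / u ^ 2) + (e₂ - C.r) / u ^ 2 * ((e₃ - C.r) / u ^ 2)) := by
    rw [hW', WeierstrassCurve.variableChange_b₄, hui, r2, r4]
    field_simp
    ring
  have b6 : W'.b₆ = -4 * ((e₁ - C.r) / u ^ 2 * ((e₂ - C.r) / u ^ 2) * ((e₃ - C.r) / u ^ 2)) := by
    rw [hW', WeierstrassCurve.variableChange_b₆, hui, r2, r4, r6]
    field_simp
    ring
  have hconst : ∀ c : ℂ, RatFunc.C c ∈ A := hC
  have hq : (4 : RatFunc ℂ)⁻¹ ∈ A := by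
    have := hC (4 : ℂ)⁻¹
    rwa [map_inv₀, map_ofNat] at this
  have hn : ∀ n : ℕ, (n : RatFunc ℂ) ∈ A := by
    intro n
    have := hC (n : ℂ)
    rwa [map_natCast] at this
  have h4A : (4 : RatFunc ℂ) ∈ A := by exact_mod_cast hn 4
  have h2A : (2 : RatFunc ℂ) ∈ A := by exact_mod_cast hn 2
  have h16A : (16 : RatFunc ℂ) ∈ A := by exact_mod_cast hn 16
  have b2A : W'.b₂ ∈ A := by
    unfold WeierstrassCurve.b₂
    exact A.add_mem _ _ (by rw [pow_two]; exact A.mul_mem _ _ h1 h1) (A.mul_mem _ _ h4A h2)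
  have b4A : W'.b₄ ∈ A := by
    unfold WeierstrassCurve.b₄
    exact A.add_mem _ _ (A.mul_mem _ _ h2A h4) (A.mul_mem _ _ h1 h3)
  have b6A : W'.b₆ ∈ A := by
    unfold WeierstrassCurve.b₆
    exact A.add_mem _ _ (by rw [pow_two]; exact A.mul_mem _ _ h3 h3) (A.mul_mem _ _ h4A h6)
  set f₁ := (e₁ - C.r) / u ^ 2 with hf1
  set f₂ := (e₂ - C.r) / u ^ 2 with hf2
  set f₃ := (e₃ - C.r) / u ^ 2 with hf3
  have c2A : (4 : RatFunc ℂ)⁻¹ * W'.b₂ ∈ A := A.mul_mem _ _ hq b2A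
  have c1A : (4 : RatFunc ℂ)⁻¹ * (2 * W'.b₄) ∈ A := A.mul_mem _ _ hq (A.mul_mem _ _ h2A b4A)
  have c0A : (4 : RatFunc ℂ)⁻¹ * W'.b₆ ∈ A := A.mul_mem _ _ hq b6A
  have h40 : (4 : RatFunc ℂ) ≠ 0 := by norm_num
  have hf1A : f₁ ∈ A := by
    apply mem_of_cubic A f₁ _ _ _ c2A c1A c0A
    rw [b2, b4, b6]
    field_simp
    ring
  have hf2A : f₂ ∈ A := by
    apply mem_of_cubic A f₂ _ _ _ c2A c1A c0A
    rw [b2, b4, b6]
    field_simp
    ring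
  have hf3A : f₃ ∈ A := by
    apply mem_of_cubic A f₃ _ _ _ c2A c1A c0A
    rw [b2, b4, b6]
    field_simp
    ring
  have hDel : W'.Δ = 16 * ((f₁ - f₂) * (f₂ - f₃) * (f₃ - f₁)) ^ 2 := by
    have hb8 := W'.b_relation
    have hb8' : W'.b₈ = (W'.b₂ * W'.b₆ - W'.b₄ ^ 2) / 4 := by
      field_simp
      linear_combination hb8
    unfold WeierstrassCurve.Δ
    rw [hb8', b2, b4, b6]
    ring
  have n12 : f₁ - f₂ ≠ 0 := by
    intro h; apply hD; rw [hDel, h]; ring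
  have n23 : f₂ - f₃ ≠ 0 := by
    intro h; apply hD; rw [hDel, h]; ring
  have n31 : f₃ - f₁ ≠ 0 := by
    intro h; apply hD; rw [hDel, h]; ring
  have m12 : f₁ - f₂ ∈ A := sub_mem hf1A hf2A
  have m23 : f₂ - f₃ ∈ A := sub_mem hf2A hf3A
  have m31 : f₃ - f₁ ∈ A := sub_mem hf3A hf1A
  have d12 : (e₁ - e₂) / u ^ 2 = f₁ - f₂ := by rw [hf1, hf2]; ring
  have d23 : (e₂ - e₃) / u ^ 2 = f₂ - f₃ := by rw [hf2, hf3]; ring
  have d31 : (e₃ - e₁) / u ^ 2 = f₃ - f₁ := by rw [hf3, hf1]; ring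
  have key : ∀ x y z : RatFunc ℂ, x ≠ 0 → y ≠ 0 → z ≠ 0 → x ∈ A → y ∈ A → z ∈ A →
      W'.Δ = 16 * (x * y * z) ^ 2 → x⁻¹ ∈ A := by
    intro x y z hx hy hz hxA hyA hzA h
    have : x⁻¹ = 16 * x * (y * y) * (z * z) * (W'.Δ)⁻¹ := by
      rw [h]
      field_simp
    rw [this]
    exact A.mul_mem _ _ (A.mul_mem _ _ (A.mul_mem _ _ (A.mul_mem _ _ h16A hxA)
      (A.mul_mem _ _ hyA hyA)) (A.mul_mem _ _ hzA hzA)) hDi
  refine ⟨u, hu0, ?_, ?_, ?_, ?_, ?_, ?_, ?_, ?_, ?_⟩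
  · rw [d12]; exact m12
  · rw [d12]; exact key _ _ _ n12 n23 n31 m12 m23 m31 hDel
  · rw [d23]; exact m23
  · rw [d23]; exact key _ _ _ n23 n31 n12 m23 m31 m12 (by rw [hDel]; ring)
  · rw [d31]; exact m31
  · rw [d31]; exact key _ _ _ n31 n12 n23 m31 m12 m23 (by rw [hDel]; ring)
  · intro h; apply n12; rw [← d12, h, zero_div]
  · intro h; apply n23; rw [← d23, h, zero_div]
  · intro h; apply n31; rw [← d31, h, zero_div]

end Pool.Agent.NJ.H37
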